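import Mathlib
import Pool.Agent.Helper14.TwoSided
import Pool.Agent.Helper14.Growth

/-!
# The degree of the binary Waring map for perfect pairs

For every perfect pair `(k, d)` the generic number `N(k, d)` of unordered collections of
`s = (k * d + 1) / (d + 1)` `k`-th powers of binary forms of degree `d` with a given sum is
bounded below and above, and the two bounds agree to leading order:
`(k / 5) ^ ((d - 1) * s) ≤ N(k, d) ≤ (5 * k) ^ ((d - 1) * s)` for `d ≥ 2`.
-/

namespace Pool.Agent.Results.MP_3dc859_ag.DegreeGrowth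

open MvPolynomial

/-- The vector of coefficients of a binary form `f` of degree `m`: the entry `i` is the
coefficient of `x ^ (m - i) * y ^ i`. -/
noncomputable def coeffVec (m : ℕ) (f : MvPolynomial (Fin 2) ℂ) : Fin (m + 1) → ℂ :=
  fun i => coeff (Finsupp.single 0 (m - (i : ℕ)) + Finsupp.single 1 (i : ℕ)) f

/-- The unordered collections of `s` `k`-th powers of binary forms of degree `d` with sum `f`. -/
def decompositions (s k d : ℕ) (f : MvPolynomial (Fin 2) ℂ) :
    Set (Multiset (MvPolynomial (Fin 2) ℂ)) :=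
  {D | Multiset.card D = s ∧
    (∀ p ∈ D, ∃ g : MvPolynomial (Fin 2) ℂ, g.IsHomogeneous d ∧ p = g ^ k) ∧ D.sum = f}

/-- `N` is the number of decompositions of a generic binary form of degree `k * d`: outside the
zero set of a nonzero polynomial in the coefficients, every form has exactly `N` of them. -/
def IsGenericNumber (k d N : ℕ) : Prop :=
  ∃ P : MvPolynomial (Fin (k * d + 1)) ℂ, P ≠ 0 ∧
    ∀ f : MvPolynomial (Fin 2) ℂ, f.IsHomogeneous (k * d) → eval (coeffVec (k * d) f) P ≠ 0 →
      (decompositions ((k * d + 1) / (d + 1)) k d f).encard = N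

theorem IsGenericNumber.unique {k d M N : ℕ} (hM : IsGenericNumber k d M)
    (hN : IsGenericNumber k d N) : M = N := by
  obtain ⟨P, hP, hP'⟩ := hM
  obtain ⟨Q, hQ, hQ'⟩ := hN
  obtain ⟨c, hc⟩ : ∃ c, eval c (P * Q) ≠ 0 := by
    by_contra hcon
    push Not at hcon
    exact mul_ne_zero hP hQ (Pool.Agent.Helper14.eq_zero_of_eval_eq_zero_on_open isOpen_univ
      Set.univ_nonempty _ (fun c _ => hcon c))
  rw [map_mul, mul_ne_zero_iff] at hc
  have h1 : coeffVec (k * d) (Pool.Agent.Helper14.hom (k * d) c) = c := by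
    funext i
    exact Pool.Agent.Helper14.coeff_hom (k * d) c i
  have h2 := hP' _ (Pool.Agent.Helper14.isHomogeneous_hom (k * d) c) (by rw [h1]; exact hc.1)
  have h3 := hQ' _ (Pool.Agent.Helper14.isHomogeneous_hom (k * d) c) (by rw [h1]; exact hc.2)
  rw [h2] at h3
  exact_mod_cast h3

/-- **Two-sided bound for the degree of the binary Waring map.** For a perfect pair `(k, d)` and
`s = (k * d + 1) / (d + 1)` there is exactly one generic number `N`, and
`(k * ∏_{i = 1}^{s - 2} (i + ⌊i / d⌋)) ^ (d - 1) ≤ N ≤ k ^ (s * d) / s!`; hence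
`(k / 5) ^ ((d - 1) * s) ≤ N ≤ (5 * k) ^ ((d - 1) * s)` when `d ≥ 2`. -/
theorem result (k d : ℕ) (hk : 2 ≤ k) (hd : 1 ≤ d) (hperf : (d + 1) ∣ (k * d + 1)) :
    ∃ N : ℕ, (∀ M : ℕ, IsGenericNumber k d M ↔ M = N) ∧
      (k * ∏ i ∈ Finset.Icc 1 ((k * d + 1) / (d + 1) - 2), (i + i / d)) ^ (d - 1) ≤ N ∧
      (N : ℝ) ≤ (k : ℝ) ^ ((k * d + 1) / (d + 1) * d) / (Nat.factorial ((k * d + 1) / (d + 1)) : ℝ) ∧
      (2 ≤ d → ((k : ℝ) / 5) ^ ((d - 1) * ((k * d + 1) / (d + 1))) ≤ (N : ℝ) ∧
        (N : ℝ) ≤ (5 * (k : ℝ)) ^ ((d - 1) * ((k * d + 1) / (d + 1)))) := by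
  -- the pair is `(j * (d + 1) + 1, d)`
  obtain ⟨j, hj, rfl⟩ : ∃ j : ℕ, 1 ≤ j ∧ k = Pool.Agent.Helper14.kk j d := by
    have h1 : (d + 1) ∣ (k - 1) := by
      have h2 : k * (d + 1) - (k * d + 1) = k - 1 := by
        rw [mul_add, mul_one]; omega
      rw [← h2]
      exact Nat.dvd_sub (Dvd.intro_left k rfl) hperf
    obtain ⟨j, hj⟩ := h1
    refine ⟨j, ?_, ?_⟩
    · rcases Nat.eq_zero_or_pos j with h0 | h0
      · rw [h0, mul_zero] at hj; omega
      · exact h0
    · unfold Pool.Agent.Helper14.kk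
      rw [mul_comm j (d + 1)]; omega
  have hs : (Pool.Agent.Helper14.kk j d * d + 1) / (d + 1) = Pool.Agent.Helper14.ss j d := by
    have h1 : Pool.Agent.Helper14.kk j d * d + 1 = Pool.Agent.Helper14.ss j d * (d + 1) := by
      unfold Pool.Agent.Helper14.kk Pool.Agent.Helper14.ss; ring
    rw [h1]
    exact Nat.mul_div_cancel _ (Nat.succ_pos d)
  obtain ⟨N, P, hP, hcount, hlow, hup⟩ := Pool.Agent.Helper14.two_sided hj hd
  have hgen : IsGenericNumber (Pool.Agent.Helper14.kk j d) d N := by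
    refine ⟨P, hP, fun f hf hfP => ?_⟩
    have h1 : Pool.Agent.Helper14.hom (Pool.Agent.Helper14.kk j d * d)
        (coeffVec (Pool.Agent.Helper14.kk j d * d) f) = f := Pool.Agent.Helper14.hom_coeff hf
    have h2 := hcount _ hfP
    rw [h1] at h2
    rw [hs]
    exact h2
  have hs2 : Pool.Agent.Helper14.ss j d - 2 = j * d - 1 := by
    unfold Pool.Agent.Helper14.ss; omega
  rw [hs, hs2]
  set k := Pool.Agent.Helper14.kk j d with hkdef
  set s := Pool.Agent.Helper14.ss j d with hsdef
  have hjd : d ≤ j * d := Nat.le_mul_of_pos_left d hj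
  refine ⟨N, fun M => ⟨fun hM => hM.unique hgen, fun h => h ▸ hgen⟩, hlow, ?_, fun hd2 => ?_⟩
  · rw [le_div_iff₀ (by positivity)]
    exact_mod_cast hup
  · have hks : 2 * k + 1 ≤ 3 * s := by
      have h1 : 2 * (j * 1) ≤ j * d := by nlinarith
      rw [hkdef, hsdef]
      unfold Pool.Agent.Helper14.kk Pool.Agent.Helper14.ss
      have h2 : j * (d + 1) = j * d + j := by ring
      rw [h2]
      omega
    have hs3 : 3 ≤ s := by rw [hsdef]; unfold Pool.Agent.Helper14.ss; omega
    constructor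
    · have h1 : k ^ s ≤ 5 ^ s * (k * ∏ i ∈ Finset.Icc 1 (j * d - 1), (i + i / d)) := by
        refine (Pool.Agent.Helper14.pow_le_five_lower hs3 hks).trans ?_
        rw [hs2]
        exact Nat.mul_le_mul_left _ (Nat.mul_le_mul_left _
          (Pool.Agent.Helper14.factorial_le_prod _ _))
      have h2 : (k ^ s) ^ (d - 1) ≤ (5 ^ s) ^ (d - 1) * N := by
        refine (Nat.pow_le_pow_left h1 (d - 1)).trans ?_
        rw [mul_pow]
        exact Nat.mul_le_mul_left _ hlow
      rw [div_pow, div_le_iff₀ (by positivity), mul_comm (d - 1) s, pow_mul, pow_mul,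
        mul_comm (N : ℝ)]
      exact_mod_cast h2
    · have h1 : k ^ s ≤ 5 ^ s * s.factorial :=
        Pool.Agent.Helper14.pow_le_five_upper (by omega)
      have h2 : N ≤ (5 * k) ^ ((d - 1) * s) := by
        have h3 : k ^ (s * d) = k ^ ((d - 1) * s) * k ^ s := by
          rw [← pow_add]
          congr 1
          obtain ⟨e, rfl⟩ : ∃ e, d = e + 1 := ⟨d - 1, by omega⟩
          rw [Nat.add_sub_cancel]; ring
        have h4 : N * s.factorial ≤ (k ^ ((d - 1) * s) * 5 ^ s) * s.factorial := by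
          calc N * s.factorial ≤ k ^ (s * d) := hup
            _ = k ^ ((d - 1) * s) * k ^ s := h3
            _ ≤ k ^ ((d - 1) * s) * (5 ^ s * s.factorial) := Nat.mul_le_mul_left _ h1
            _ = _ := by ring
        have h5 := Nat.le_of_mul_le_mul_right h4 (Nat.factorial_pos s)
        refine h5.trans ?_
        rw [mul_pow, mul_comm]
        exact Nat.mul_le_mul_right _ (Nat.pow_le_pow_right (by norm_num)
          (Nat.le_mul_of_pos_left s (by omega)))
      exact_mod_cast h2

end Pool.Agent.Results.MP_3dc859_ag.DegreeGrowth
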