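import Pool.Agent.Helper41.WN.NormRes

/-!
# The degree of the binary Waring map for the norm pairs

Let `q ≥ 3` be a prime power, `m ≥ 1`, `d = q - 1` and `k = 1 + q + ... + q ^ m`. Then `(k, d)` is a
perfect pair of length `s = q ^ m`, and the generic number `N` of unordered collections of `s`
`k`-th powers of binary forms of degree `d` with a given sum satisfies
`k ^ (s * d) / 5 ^ s ≤ s! * N ≤ k ^ (s * d)`: the upper bound of Bezout type is sharp up to a factor
`5 ^ s`.
-/

namespace Pool.Agent.Results.MP_3dc859_ag.NormPairs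

open MvPolynomial

/-- The vector of coefficients of a binary form `f` of degree `m`: the entry `i` is the
coefficient of `x ^ (m - i) * y ^ i`. -/
noncomputable def coeffVec (m : ℕ) (f : MvPolynomial (Fin 2) ℂ) : Fin (m + 1) → ℂ :=
  fun i => coeff (Finsupp.single 0 (m - (i : ℕ)) + Finsupp.single 1 (i : ℕ)) f

/-- The unordered collections of `s` `k`-th powers of binary forms of degree `d` with sum `f`. -/
def decompositions (s k d : ℕ) (f : MvPolynomial (Fin 2) ℂ) :
    Set (Multiset (MvPolynomial (Fin 2) ℂ)) :=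
  {D | Multiset.card D = s ∧
    (∀ p ∈ D, ∃ g : MvPolynomial (Fin 2) ℂ, g.IsHomogeneous d ∧ p = g ^ k) ∧ D.sum = f}

/-- `N` is the number of decompositions of a generic binary form of degree `k * d`: outside the
zero set of a nonzero polynomial in the coefficients, every form has exactly `N` of them. -/
def IsGenericNumber (k d N : ℕ) : Prop :=
  ∃ P : MvPolynomial (Fin (k * d + 1)) ℂ, P ≠ 0 ∧
    ∀ f : MvPolynomial (Fin 2) ℂ, f.IsHomogeneous (k * d) → eval (coeffVec (k * d) f) P ≠ 0 →
      (decompositions ((k * d + 1) / (d + 1)) k d f).encard = N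

/-- **The degree of the binary Waring map for the norm pairs.** Let `q ≥ 3` be a prime power and
`m ≥ 1`, `d = q - 1`, `k = 1 + q + ... + q ^ m`. Then `s = (k * d + 1) / (d + 1)` equals `q ^ m`,
there is exactly one generic number `N`, and `s! * N ≤ k ^ (s * d) ≤ 5 ^ s * (s! * N)`. -/
theorem result (q m : ℕ) (hq : IsPrimePow q) (hq3 : 3 ≤ q) (hm : 1 ≤ m) (k d : ℕ)
    (hd : d = q - 1) (hk : k = ∑ l ∈ Finset.range (m + 1), q ^ l) :
    (k * d + 1) / (d + 1) = q ^ m ∧
    ∃ N : ℕ, (∀ M : ℕ, IsGenericNumber k d M ↔ M = N) ∧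
      (q ^ m).factorial * N ≤ k ^ (q ^ m * d) ∧
      k ^ (q ^ m * d) ≤ 5 ^ (q ^ m) * ((q ^ m).factorial * N) :=
  Pool.Agent.Helper41.WN.NR.result q m hq hq3 hm k d hd hk

end Pool.Agent.Results.MP_3dc859_ag.NormPairs
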