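import Pool.Agent.Helper41.WN.PrimeRes

/-!
# The degree of the binary Waring map for perfect pairs of prime length

For a perfect pair `(k, d)` such that the length `s = (k * d + 1) / (d + 1)` is a prime number, the
generic number `N` of unordered collections of `s` `k`-th powers of binary forms of degree `d` with
a given sum satisfies `k ^ (s * d) / (125 ^ s * s ^ d) ≤ s! * N ≤ k ^ (s * d)`: the upper bound of
Bezout type is sharp up to a factor `exp (O (s + d log s))`.
-/

namespace Pool.Agent.Results.MP_3dc859_ag.PrimeLength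

open MvPolynomial

/-- The vector of coefficients of a binary form `f` of degree `m`: the entry `i` is the
coefficient of `x ^ (m - i) * y ^ i`. -/
noncomputable def coeffVec (m : ℕ) (f : MvPolynomial (Fin 2) ℂ) : Fin (m + 1) → ℂ :=
  fun i => coeff (Finsupp.single 0 (m - (i : ℕ)) + Finsupp.single 1 (i : ℕ)) f

/-- The unordered collections of `s` `k`-th powers of binary forms of degree `d` with sum `f`. -/
def decompositions (s k d : ℕ) (f : MvPolynomial (Fin 2) ℂ) :
    Set (Multiset (MvPolynomial (Fin 2) ℂ)) :=
  {D | Multiset.card D = s ∧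
    (∀ p ∈ D, ∃ g : MvPolynomial (Fin 2) ℂ, g.IsHomogeneous d ∧ p = g ^ k) ∧ D.sum = f}

/-- `N` is the number of decompositions of a generic binary form of degree `k * d`: outside the
zero set of a nonzero polynomial in the coefficients, every form has exactly `N` of them. -/
def IsGenericNumber (k d N : ℕ) : Prop :=
  ∃ P : MvPolynomial (Fin (k * d + 1)) ℂ, P ≠ 0 ∧
    ∀ f : MvPolynomial (Fin 2) ℂ, f.IsHomogeneous (k * d) → eval (coeffVec (k * d) f) P ≠ 0 →
      (decompositions ((k * d + 1) / (d + 1)) k d f).encard = N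

/-- **The degree of the binary Waring map for perfect pairs of prime length.** Let `(k, d)` be a
perfect pair such that `s = (k * d + 1) / (d + 1)` is prime. Then there is exactly one generic
number `N`, and `s! * N ≤ k ^ (s * d) ≤ 125 ^ s * s ^ d * (s! * N)`; for `d ≥ 4` the constant `125`
can be replaced by `17`. In particular
`log N = s * d * log k - log (s!) - O (s + d * log s)`. -/
theorem result (k d : ℕ) (hk : 2 ≤ k) (hd : 1 ≤ d) (hperf : (d + 1) ∣ (k * d + 1))
    (hprime : ((k * d + 1) / (d + 1)).Prime) :
    ∃ N : ℕ, (∀ M : ℕ, IsGenericNumber k d M ↔ M = N) ∧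
      ((k * d + 1) / (d + 1)).factorial * N ≤ k ^ ((k * d + 1) / (d + 1) * d) ∧
      k ^ ((k * d + 1) / (d + 1) * d) ≤
        125 ^ ((k * d + 1) / (d + 1)) * ((k * d + 1) / (d + 1)) ^ d *
          (((k * d + 1) / (d + 1)).factorial * N) ∧
      (4 ≤ d → k ^ ((k * d + 1) / (d + 1) * d) ≤
        17 ^ ((k * d + 1) / (d + 1)) * ((k * d + 1) / (d + 1)) ^ d *
          (((k * d + 1) / (d + 1)).factorial * N)) :=
  Pool.Agent.Helper41.WN.PR.result k d hk hd hperf hprime

end Pool.Agent.Results.MP_3dc859_ag.PrimeLength
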